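import Pool.Agent.Q23.ZZ.Dir
import Pool.Agent.Q23.AQ.Str

/-!
# Local independence of L-functions and exponentials in the complex domain
-/

set_option autoImplicit false

open Filter Topology Finset

namespace Pool.Agent.Q23.ZZ

/-- the functions `L^(l)(χ_j, k z + x_i)` and `exp(α_j z)` -/
noncomputable def funZ {N c K r s u : ℕ} [NeZero N] (χ : Fin c → DirichletCharacter ℂ N) (x : Fin r → ℝ) (α : Fin u → ℝ) :
    Iz c K r s ⊕ Fin u → ℂ → ℂ
  | Sum.inl i, z => Lf (χ i.1) i.2.2.2 ((((i.2.1 : ℕ) + 1 : ℕ) : ℂ) * z + x i.2.2.1)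
  | Sum.inr j, z => Complex.exp (α j * z)

/-- the domain -/
def DZ (K : ℕ) {r : ℕ} (x : Fin r → ℝ) : Set ℂ := {z | ∀ (k : Fin K) (i : Fin r), (((k : ℕ) + 1 : ℕ) : ℂ) * z + x i ≠ 1}

theorem dz_pre (K : ℕ) {r : ℕ} (x : Fin r → ℝ) : IsPreconnected (DZ K x) := by
  have h1 : DZ K x = (Set.range fun p : Fin K × Fin r => (1 - (x p.2 : ℂ)) / (((p.1 : ℕ) + 1 : ℕ) : ℂ))ᶜ := by
    ext z
    simp only [DZ, Set.mem_setOf_eq, Set.mem_compl_iff, Set.mem_range, not_exists, Prod.forall]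
    refine forall_congr' fun k => forall_congr' fun i => ?_
    have hk : (((k : ℕ) + 1 : ℕ) : ℂ) ≠ 0 := Nat.cast_ne_zero.2 (by omega)
    rw [not_iff_not, div_eq_iff hk]
    constructor
    · intro h
      linear_combination -h
    · intro h
      linear_combination -h
  rw [h1]
  exact ((Set.finite_range _).countable.isConnected_compl_of_one_lt_rank
    (by rw [Complex.rank_real_complex]; exact Cardinal.one_lt_two)).isPreconnected

theorem funZ_an {N c K r s u : ℕ} [NeZero N] (χ : Fin c → DirichletCharacter ℂ N) (x : Fin r → ℝ) (α : Fin u → ℝ)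
    (y : Iz c K r s ⊕ Fin u) {z : ℂ} (hz : z ∈ DZ K x) : AnalyticAt ℂ (funZ χ x α y) z := by
  rcases y with i | j
  · refine AnalyticAt.comp (g := Lf (χ i.1) i.2.2.2) (f := fun z : ℂ => (((i.2.1 : ℕ) + 1 : ℕ) : ℂ) * z + x i.2.2.1)
      (Lf_an _ _ (Or.inl (hz _ _))) ?_
    exact (analyticAt_const.mul analyticAt_id).add analyticAt_const
  · exact (analyticAt_const.mul analyticAt_id).cexp

theorem funZ_loc {N c K r s u : ℕ} [NeZero N] (χ : Fin c → DirichletCharacter ℂ N) (hχ : Function.Injective χ)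
    (x : Fin r → ℝ) (hx : Function.Injective x) (α : Fin u → ℝ)
    (hα : ∀ (e e' : Fin u → ℕ) (x y : ℕ), 1 ≤ x → 1 ≤ y →
      ∑ j, e j * α j + Real.log x = ∑ j, e' j * α j + Real.log y → e = e') :
    ∀ t0 ∈ DZ K x, Y124.LocInd (funZ (K := K) (s := s) χ x α) t0 := by
  refine Y771.RP.locInd_of _ (DZ K x) (dz_pre K x) (fun y t ht => funZ_an χ x α y ht) fun P hP => ?_
  refine Lf_ind χ hχ x hx α hα P ?_
  have hbig : ∀ᶠ t : ℝ in atTop, (t : ℂ) ∈ DZ K x := by
    have h1 : ∀ᶠ t : ℝ in atTop, ∀ i : Fin r, 1 + |x i| < t := eventually_all.2 fun i => eventually_gt_atTop _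
    filter_upwards [h1] with t ht k i h2
    have h3 := congrArg Complex.re h2
    have h4 : ((((k : ℕ) + 1 : ℕ) : ℂ) * t + x i).re = (((k : ℕ) + 1 : ℕ) : ℝ) * t + x i := by
      rw [Complex.add_re, Complex.ofReal_re, ← Complex.ofReal_natCast, ← Complex.ofReal_mul, Complex.ofReal_re]
    rw [h4, Complex.one_re] at h3
    have h5 := neg_abs_le (x i)
    have h6 := abs_nonneg (x i)
    have h7 : (1 : ℝ) ≤ (((k : ℕ) + 1 : ℕ) : ℝ) := by exact_mod_cast Nat.succ_le_succ (Nat.zero_le _)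
    have h8 := ht i
    nlinarith
  filter_upwards [hbig] with t ht
  rw [← hP t ht]
  congr 2
  funext o
  rcases o with _ | (i | j) <;> rfl

end Pool.Agent.Q23.ZZ
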