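import Mathlib

/-!
# Algebraic independence of arithmetic functions for the Dirichlet convolution
-/

set_option autoImplicit false

open Finset MvPolynomial
open scoped ArithmeticFunction.Omega

namespace Pool.Agent.Q23.ZZ

abbrev AF := ArithmeticFunction ℂ

/-- the derivation `f ↦ v_p f` -/
noncomputable def Dp (p : ℕ) (f : AF) : AF := ⟨fun n => (n.factorization p : ℂ) * f n, by simp⟩

theorem Dp_apply (p : ℕ) (f : AF) (n : ℕ) : Dp p f n = (n.factorization p : ℂ) * f n := rfl

theorem Dp_add (p : ℕ) (f g : AF) : Dp p (f + g) = Dp p f + Dp p g := by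
  ext n
  simp only [Dp_apply, ArithmeticFunction.add_apply]
  ring

theorem Dp_mul (p : ℕ) (f g : AF) : Dp p (f * g) = Dp p f * g + f * Dp p g := by
  ext n
  simp only [Dp_apply, ArithmeticFunction.add_apply, ArithmeticFunction.mul_apply, Finset.mul_sum, ← Finset.sum_add_distrib]
  refine Finset.sum_congr rfl fun x hx => ?_
  obtain ⟨h1, h2⟩ := Nat.mem_divisorsAntidiagonal.1 hx
  have h3 : x.1 ≠ 0 := by
    intro h
    rw [h, zero_mul] at h1
    exact h2 h1.symm
  have h4 : x.2 ≠ 0 := by
    intro h
    rw [h, mul_zero] at h1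
    exact h2 h1.symm
  rw [← h1, Nat.factorization_mul h3 h4, Finsupp.add_apply]
  push_cast
  ring

theorem alg_apply (c : ℂ) (n : ℕ) : (algebraMap ℂ AF c) n = if n = 1 then c else 0 := by
  rw [Algebra.algebraMap_eq_smul_one, ArithmeticFunction.smul_map, ArithmeticFunction.one_apply]
  split_ifs <;> simp

theorem Dp_alg (p : ℕ) (c : ℂ) : Dp p (algebraMap ℂ AF c) = 0 := by
  ext n
  rw [Dp_apply, alg_apply]
  split_ifs with h
  · subst h
    simp
  · simp

/-- the chain rule -/
theorem Dp_aeval {κ : Type} [Fintype κ] [DecidableEq κ] (p : ℕ) (f : κ → AF) (P : MvPolynomial κ ℂ) :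
    Dp p (aeval f P) = ∑ i, aeval f (pderiv i P) * Dp p (f i) := by
  induction P using MvPolynomial.induction_on with
  | C c =>
    simp only [aeval_C, Dp_alg, pderiv_C, map_zero, zero_mul, Finset.sum_const_zero]
  | add P Q hP hQ =>
    simp only [map_add, Dp_add, hP, hQ, add_mul, Finset.sum_add_distrib]
  | mul_X P j hP =>
    rw [map_mul, aeval_X, Dp_mul, hP]
    simp only [Derivation.leibniz, pderiv_X, smul_eq_mul, map_add, map_mul, aeval_X, add_mul, Finset.sum_add_distrib]
    rw [add_comm]
    congr 1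
    · rw [Finset.sum_eq_single j]
      · simp
      · intro i _ hi
        rw [Pi.single_eq_of_ne' hi]
        simp
      · intro h
        exact absurd (Finset.mem_univ _) h
    · rw [Finset.sum_mul]
      exact Finset.sum_congr rfl fun i _ => by ring

theorem totalDegree_pderiv_lt {κ : Type} [Fintype κ] [DecidableEq κ] (P : MvPolynomial κ ℂ) (i : κ)
    (h : pderiv i P ≠ 0) : (pderiv i P).totalDegree < P.totalDegree := by
  have h0 : 0 < P.totalDegree := by
    rcases Nat.eq_zero_or_pos P.totalDegree with h1 | h1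
    · exfalso
      apply h
      rw [(totalDegree_eq_zero_iff_eq_C (p := P)).1 h1, pderiv_C]
    · exact h1
  refine lt_of_le_of_lt (b := P.totalDegree - 1) ?_ (by omega)
  refine Finset.sup_le fun s hs => ?_
  rw [MvPolynomial.mem_support_iff, coeff_pderiv] at hs
  have h1 : (s + Finsupp.single i 1).degree ≤ P.totalDegree :=
    le_totalDegree (MvPolynomial.mem_support_iff.2 (left_ne_zero_of_mul hs))
  rw [map_add, Finsupp.degree_single] at h1
  have h2 : (s.sum fun _ e => e) = s.degree := rfl
  rw [h2]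
  omega

/-- **Algebraic independence of arithmetic functions.** -/
theorem algInd {κ : Type} [Fintype κ] [DecidableEq κ] (f : κ → AF) (k : κ → ℕ) (hk : ∀ i, 1 ≤ k i)
    (hf : ∀ i n, f i n ≠ 0 → ∃ c, n = c ^ k i)
    (hli : ∀ (m N : ℕ) (c : κ → ℂ), 1 ≤ m → N ≠ 0 →
      (∀ p : ℕ, p.Prime → ¬ p ∣ N → ∑ i, (if k i = m then c i * f i (p ^ m) else 0) = 0) → ∀ i, k i = m → c i = 0)
    (P : MvPolynomial κ ℂ) (hP : aeval f P = 0) : P = 0 := by
  classical
  by_contra hP0
  let I : Set (MvPolynomial κ ℂ) := {P | aeval f P = 0 ∧ P ≠ 0}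
  have hI : I.Nonempty := ⟨P, hP, hP0⟩
  obtain ⟨P, hP, hmin⟩ : ∃ P ∈ I, ∀ Q ∈ I, ¬ Q.totalDegree < P.totalDegree :=
    ⟨Function.argminOn totalDegree I hI, Function.argminOn_mem totalDegree I hI, fun Q hQ =>
      Function.not_lt_argminOn totalDegree I hQ⟩
  obtain ⟨hPf, hPne⟩ := hP
  set g : κ → AF := fun i => aeval f (pderiv i P) with hg
  have hgne : ∀ i, pderiv i P ≠ 0 → g i ≠ 0 := fun i hi h0 =>
    hmin _ ⟨h0, hi⟩ (totalDegree_pderiv_lt P i hi)
  -- some derivative is not zero
  obtain ⟨i1, hi1⟩ : ∃ i, pderiv i P ≠ 0 := by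
    by_contra hcon
    push Not at hcon
    obtain ⟨s, hs⟩ := MvPolynomial.support_nonempty.2 hPne
    have hall : ∀ s, P.coeff s ≠ 0 → s = 0 := by
      intro s hs
      by_contra hs0
      obtain ⟨i, hi⟩ : ∃ i, s i ≠ 0 := by
        by_contra hcon'
        push Not at hcon'
        exact hs0 (Finsupp.ext hcon')
      have hadd : s - Finsupp.single i 1 + Finsupp.single i 1 = s := by
        apply tsub_add_cancel_of_le
        rw [Finsupp.single_le_iff]
        exact Nat.one_le_iff_ne_zero.2 hi
      have h1 := coeff_pderiv (i := i) P (s - Finsupp.single i 1)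
      rw [hcon i, coeff_zero, hadd] at h1
      have h2 : (((s - Finsupp.single i 1 : κ →₀ ℕ) i : ℕ) : ℂ) + 1 ≠ 0 := by
        exact Nat.cast_add_one_ne_zero _
      exact (mul_ne_zero hs h2) h1.symm
    have hPC : P = C (P.coeff 0) := by
      refine MvPolynomial.ext _ _ fun t => ?_
      rw [coeff_C]
      split_ifs with h
      · rw [h]
      · by_contra hne
        exact h (hall t hne).symm
    rw [hPC, aeval_C] at hPf
    have h1 := congrArg (fun F : AF => F 1) hPf
    simp only [alg_apply, if_true, ArithmeticFunction.zero_apply] at h1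
    apply hPne
    rw [hPC, h1, map_zero]
  -- the extremal pair
  let S : Set (κ × ℕ) := {x | g x.1 x.2 ≠ 0}
  have hS : S.Nonempty := by
    have h1 := hgne i1 hi1
    by_contra hcon
    rw [Set.not_nonempty_iff_eq_empty] at hcon
    apply h1
    ext n
    by_contra hne
    have : (i1, n) ∈ S := hne
    rw [hcon] at this
    exact this
  let ν : κ × ℕ → ℕ ×ₗ ℕ := fun x => toLex (Ω x.2 + k x.1, k x.1)
  obtain ⟨⟨i0, N⟩, hx, hxmin⟩ : ∃ x ∈ S, ∀ y ∈ S, ¬ ν y < ν x :=
    ⟨Function.argminOn ν S hS, Function.argminOn_mem ν S hS, fun y hy => Function.not_lt_argminOn ν S hy⟩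
  have hgN : g i0 N ≠ 0 := hx
  have hN0 : N ≠ 0 := by
    rintro rfl
    apply hgN
    simp
  set m := k i0 with hm
  have hm1 : 1 ≤ m := hk i0
  have hmin' : ∀ i a, g i a ≠ 0 → Ω N + m ≤ Ω a + k i ∧ (Ω N + m = Ω a + k i → m ≤ k i) := by
    intro i a ha
    have h1 := hxmin (i, a) ha
    have h2 : ¬ (Ω a + k i < Ω N + m ∨ (Ω a + k i = Ω N + m ∧ k i < m)) := fun h3 =>
      h1 (Prod.Lex.toLex_lt_toLex.2 h3)
    push Not at h2
    exact ⟨h2.1, fun h3 => h2.2 h3.symm⟩
  -- the relation at `N p^m`
  have hrel : ∀ p : ℕ, p.Prime → ¬ p ∣ N → ∑ i, (if k i = m then g i N * f i (p ^ m) else 0) = 0 := by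
    intro p hp hpN
    have hpm0 : p ^ m ≠ 0 := pow_ne_zero _ hp.ne_zero
    have h1 := congrArg (fun F : AF => F (N * p ^ m)) (Dp_aeval p f P)
    simp only [hPf] at h1
    have h2 : Dp p (0 : AF) = 0 := by
      ext n
      simp [Dp_apply]
    rw [h2, ArithmeticFunction.zero_apply] at h1
    have h3 : (∑ i, aeval f (pderiv i P) * Dp p (f i) : AF) (N * p ^ m) =
        ∑ i, (g i * Dp p (f i)) (N * p ^ m) := by
      have : ∀ T : Finset κ, (∑ i ∈ T, aeval f (pderiv i P) * Dp p (f i) : AF) (N * p ^ m) =
        ∑ i ∈ T, (g i * Dp p (f i)) (N * p ^ m) := by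
        intro T
        induction T using Finset.induction_on with
        | empty => simp
        | insert j T hj ih => rw [Finset.sum_insert hj, Finset.sum_insert hj, ArithmeticFunction.add_apply, ih]
      exact this _
    rw [h3] at h1
    have hterm : ∀ i (x : ℕ × ℕ), x ∈ (N * p ^ m).divisorsAntidiagonal → g i x.1 * Dp p (f i) x.2 ≠ 0 →
        k i = m ∧ x = (N, p ^ m) := by
      rintro i ⟨a, b⟩ hx hne
      obtain ⟨hab, -⟩ := Nat.mem_divisorsAntidiagonal.1 hx
      simp only at hab hne
      have hga : g i a ≠ 0 := left_ne_zero_of_mul hne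
      have hfb' := right_ne_zero_of_mul hne
      rw [Dp_apply] at hfb'
      have hfb : f i b ≠ 0 := right_ne_zero_of_mul hfb'
      have hv : b.factorization p ≠ 0 := by
        have := left_ne_zero_of_mul hfb'
        exact_mod_cast this
      have hb0 : b ≠ 0 := by
        rintro rfl
        simp at hv
      have ha0 : a ≠ 0 := by
        rintro rfl
        apply hga
        simp
      obtain ⟨c, hc⟩ := hf i b hfb
      have hk0 : k i ≠ 0 := by have := hk i; omega
      have hpb : p ∣ b := Nat.dvd_of_factorization_pos hv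
      have hpc : p ∣ c := by
        rw [hc] at hpb
        exact hp.dvd_of_dvd_pow hpb
      have hc0 : c ≠ 0 := by
        rintro rfl
        rw [zero_pow hk0] at hc
        exact hb0 hc
      have hΩb : Ω b = k i * Ω c := by rw [hc, ArithmeticFunction.cardFactors_pow]
      have hΩc : 1 ≤ Ω c := by
        rw [Nat.one_le_iff_ne_zero]
        intro h0
        rw [ArithmeticFunction.cardFactors_eq_zero_iff_eq_zero_or_one] at h0
        rcases h0 with h0 | h0
        · exact hc0 h0
        · rw [h0] at hpc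
          exact hp.one_lt.ne' (Nat.dvd_one.1 hpc)
      have hsum : Ω a + Ω b = Ω N + m := by
        rw [← ArithmeticFunction.cardFactors_mul ha0 hb0, hab, ArithmeticFunction.cardFactors_mul hN0 hpm0, ArithmeticFunction.cardFactors_apply_prime_pow hp]
      obtain ⟨h4, h5⟩ := hmin' i a hga
      have h6 : k i ≤ Ω b := by
        rw [hΩb]
        exact Nat.le_mul_of_pos_right _ hΩc
      have h7 : Ω b = k i := by omega
      have h8 : m ≤ k i := h5 (by omega)
      have h9 : Ω c = 1 := by
        rw [hΩb] at h7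
        have h10 : k i * Ω c = k i * 1 := by omega
        exact Nat.eq_of_mul_eq_mul_left (by omega) h10
      have hcp : c = p := by
        rw [ArithmeticFunction.cardFactors_eq_one_iff_prime] at h9
        exact ((Nat.prime_dvd_prime_iff_eq hp h9).1 hpc).symm
      rw [hcp] at hc
      -- compare the powers of `p`
      have h10 : k i ≤ m := by
        have h11 : p ^ k i ∣ N * p ^ m := by
          rw [← hc, ← hab]
          exact Dvd.intro_left _ rfl
        have h12 : (Nat.Coprime (p ^ k i) N) := Nat.Coprime.pow_left _ ((Nat.Prime.coprime_iff_not_dvd hp).2 hpN)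
        exact (Nat.pow_dvd_pow_iff_le_right hp.one_lt).1 (h12.dvd_of_dvd_mul_left h11)
      have h13 : k i = m := le_antisymm h10 h8
      refine ⟨h13, ?_⟩
      rw [hc, h13] at hab
      rw [hc, h13, Nat.eq_of_mul_eq_mul_right (Nat.pos_of_ne_zero hpm0) hab]
    have h4 : ∀ i, (g i * Dp p (f i)) (N * p ^ m) = (m : ℂ) * (if k i = m then g i N * f i (p ^ m) else 0) := by
      intro i
      rw [ArithmeticFunction.mul_apply]
      split_ifs with hki
      · rw [Finset.sum_eq_single (N, p ^ m)]
        · simp only [Dp_apply]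
          rw [hp.factorization_pow, Finsupp.single_eq_same]
          ring
        · intro x hx hne
          by_contra h0
          exact hne (hterm i x hx h0).2
        · intro hx
          exfalso
          apply hx
          rw [Nat.mem_divisorsAntidiagonal]
          exact ⟨rfl, mul_ne_zero hN0 hpm0⟩
      · rw [mul_zero]
        refine Finset.sum_eq_zero fun x hx => ?_
        by_contra h0
        exact hki (hterm i x hx h0).1
    rw [Finset.sum_congr rfl fun i _ => h4 i, ← Finset.mul_sum] at h1
    have h5 : (m : ℂ) ≠ 0 := by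
      exact_mod_cast (show m ≠ 0 by omega)
    exact (mul_eq_zero.1 h1.symm).resolve_left h5
  exact hgN (hli m N (fun i => g i N) hm1 hN0 hrel i0 rfl)

end Pool.Agent.Q23.ZZ
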