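import Pool.Agent.Q23.ZZ.Alg

/-!
# Uniqueness of Dirichlet series with polynomial coefficients and exponentials
-/

set_option autoImplicit false

open Filter Topology Finset

namespace Pool.Agent.Q23.ZZ

theorem ratio_tendsto {a b : ℕ} {c : ℝ} (h : c < 0 ∨ (c = 0 ∧ a < b)) :
    Tendsto (fun t : ℝ => t ^ a / t ^ b * Real.exp (c * t)) atTop (𝓝 0) := by
  rcases h with h | ⟨h, hab⟩
  · have h1 : Tendsto (fun t : ℝ => t ^ a * Real.exp (c * t)) atTop (𝓝 0) := by
      have h2 := Real.tendsto_pow_mul_exp_neg_atTop_nhds_zero a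
      have h3 : Tendsto (fun t : ℝ => (-c) * t) atTop atTop := tendsto_id.const_mul_atTop (by linarith)
      have h4 := (h2.comp h3).const_mul (((-c) ^ a)⁻¹)
      rw [mul_zero] at h4
      refine h4.congr fun t => ?_
      have h5 : (-c) ^ a ≠ 0 := pow_ne_zero _ (by linarith)
      simp only [Function.comp, mul_pow]
      have h6 : -(-c * t) = c * t := by ring
      rw [h6]
      field_simp
    refine squeeze_zero_norm' ?_ h1
    filter_upwards [eventually_ge_atTop 1] with t ht
    have h0 : 0 < t := by linarith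
    rw [Real.norm_of_nonneg (by positivity)]
    refine mul_le_mul_of_nonneg_right ?_ (Real.exp_pos _).le
    exact div_le_self (by positivity) (one_le_pow₀ ht)
  · subst h
    simp only [zero_mul, Real.exp_zero, mul_one]
    have h1 : Tendsto (fun t : ℝ => (t ^ (b - a))⁻¹) atTop (𝓝 0) :=
      (tendsto_pow_atTop (by omega)).inv_tendsto_atTop
    refine h1.congr' ?_
    filter_upwards [eventually_gt_atTop 0] with t ht
    have h2 : t ^ b = t ^ a * t ^ (b - a) := by
      rw [← pow_add]
      congr 1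
      omega
    rw [h2]
    field_simp

/-- sums with one dominating term -/
theorem dom {J : Type} (S : Finset J) (hS : S.Nonempty) (m : J → ℕ) (lam : J → ℝ) (R : J → ℝ → ℂ) (r : J → ℂ)
    (hr : ∀ j ∈ S, r j ≠ 0) (hR : ∀ j ∈ S, Tendsto (R j) atTop (𝓝 (r j)))
    (hinj : ∀ j ∈ S, ∀ j' ∈ S, m j = m j' → lam j = lam j' → j = j') :
    ∀ᶠ t : ℝ in atTop, ∑ j ∈ S, (t : ℂ) ^ m j * Complex.exp (lam j * t) * R j t ≠ 0 := by
  classical
  obtain ⟨j0, hj0, hmax⟩ := S.exists_max_image (fun j => (toLex (lam j, m j) : ℝ ×ₗ ℕ)) hS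
  have hG : Tendsto (fun t : ℝ => ∑ j ∈ S, (((t ^ m j / t ^ m j0 * Real.exp ((lam j - lam j0) * t) : ℝ)) : ℂ) * R j t) atTop
      (𝓝 (∑ j ∈ S, if j = j0 then r j else 0)) := by
    refine tendsto_finsetSum _ fun j hj => ?_
    split_ifs with h
    · subst h
      refine (hR j hj).congr' ?_
      filter_upwards [eventually_gt_atTop 0] with t ht
      have : t ^ m j / t ^ m j * Real.exp ((lam j - lam j) * t) = 1 := by
        rw [div_self (pow_ne_zero _ ht.ne')]
        simp
      rw [this]
      simp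
    · have h1 : lam j - lam j0 < 0 ∨ (lam j - lam j0 = 0 ∧ m j < m j0) := by
        have h2 := hmax j hj
        rcases Prod.Lex.toLex_le_toLex.1 h2 with h3 | ⟨h3, h4⟩
        · left; linarith
        · right
          refine ⟨by linarith, lt_of_le_of_ne h4 fun h5 => h (hinj j hj j0 hj0 h5 h3)⟩
      have h2 : Tendsto (fun t : ℝ => (((t ^ m j / t ^ m j0 * Real.exp ((lam j - lam j0) * t) : ℝ)) : ℂ)) atTop
          (𝓝 ((0 : ℝ) : ℂ)) := (Complex.continuous_ofReal.tendsto 0).comp (ratio_tendsto h1)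
      have h3 := h2.mul (hR j hj)
      simpa using h3
  rw [Finset.sum_ite_eq' S j0, if_pos hj0] at hG
  have h1 := hG.eventually_ne (hr j0 hj0)
  filter_upwards [h1, eventually_gt_atTop 0] with t ht ht0 h0
  apply ht
  have h2 : ∀ j, (((t ^ m j / t ^ m j0 * Real.exp ((lam j - lam j0) * t) : ℝ)) : ℂ) * R j t =
      ((t : ℂ) ^ m j0)⁻¹ * Complex.exp (-(lam j0 * t)) * ((t : ℂ) ^ m j * Complex.exp (lam j * t) * R j t) := by
    intro j
    push_cast
    have h3 : ((lam j : ℂ) - lam j0) * t = -(lam j0 * t) + lam j * t := by ring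
    rw [h3, Complex.exp_add, div_eq_mul_inv]
    ring
  rw [Finset.sum_congr rfl fun j _ => h2 j, ← Finset.mul_sum, h0, mul_zero]

/-- finite abscissa -/
def Fi (f : ℕ → ℂ) : Prop := ∃ c : ℝ, LSeriesSummable f c

theorem Fi.lt_top {f : ℕ → ℂ} (h : Fi f) : LSeries.abscissaOfAbsConv f < ⊤ := by
  obtain ⟨c, hc⟩ := h
  exact hc.abscissaOfAbsConv_le.trans_lt (EReal.coe_lt_top _)

theorem Fi.ev {f : ℕ → ℂ} (h : Fi f) : ∀ᶠ t : ℝ in atTop, LSeriesSummable f t := by
  obtain ⟨c, hc⟩ := h
  filter_upwards [eventually_ge_atTop c] with t ht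
  exact hc.of_re_le_re (by simpa using ht)

theorem Fi.of_ev {f : ℕ → ℂ} (h : ∀ᶠ t : ℝ in atTop, LSeriesSummable f t) : Fi f := h.exists

/-- **Uniqueness.** -/
theorem dir_unique {J : Type} [Fintype J] (m : J → ℕ) (a : J → ℝ) (h : J → AF) (hfi : ∀ j, Fi (h j))
    (hinj : ∀ (j j' : J) (x y : ℕ), 1 ≤ x → 1 ≤ y → a j + Real.log x = a j' + Real.log y → a j = a j')
    (hma : ∀ j j', m j = m j' → a j = a j' → j = j')
    (h0 : ∀ᶠ t : ℝ in atTop, ∑ j, (t : ℂ) ^ m j * Complex.exp (a j * t) * LSeries (h j) t = 0) : ∀ j, h j = 0 := by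
  classical
  by_contra hcon
  push Not at hcon
  obtain ⟨j1, hj1⟩ := hcon
  set S : Finset J := Finset.univ.filter fun j => h j ≠ 0 with hS
  have hex : ∀ j, ∃ n : ℕ, h j ≠ 0 → (∀ k ≤ n, h j k = 0) ∧ h j (n + 1) ≠ 0 := by
    intro j
    by_cases hj : h j = 0
    · exact ⟨0, fun h' => absurd hj h'⟩
    · have hex : ∃ n, h j n ≠ 0 := by
        by_contra hcon
        push Not at hcon
        exact hj (ArithmeticFunction.ext hcon)
      set n := Nat.find hex with hn
      have h1 : h j n ≠ 0 := Nat.find_spec hex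
      have h2 : n ≠ 0 := by
        intro h3
        rw [h3] at h1
        simp at h1
      refine ⟨n - 1, fun _ => ⟨fun k hk => ?_, ?_⟩⟩
      · by_contra hne
        have := Nat.find_min' hex hne
        omega
      · rwa [show n - 1 + 1 = n by omega]
  choose n hn using hex
  have hR : ∀ j ∈ S, Tendsto (fun t : ℝ => ((n j : ℂ) + 1) ^ (t : ℂ) * LSeries (h j) t) atTop (𝓝 (h j (n j + 1))) := by
    intro j hj
    exact LSeries.tendsto_cpow_mul_atTop (f := fun k => h j k) ((hn j (Finset.mem_filter.1 hj).2).1) (hfi j).lt_top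
  have hlog : ∀ j (t : ℝ), ((n j : ℂ) + 1) ^ (t : ℂ) = Complex.exp ((Real.log ((n j + 1 : ℕ) : ℝ) : ℝ) * t) := by
    intro j t
    have h1 : ((n j : ℂ) + 1) ≠ 0 := Nat.cast_add_one_ne_zero _
    rw [Complex.cpow_def_of_ne_zero h1]
    congr 1
    have h2 : ((n j : ℂ) + 1) = (((n j + 1 : ℕ) : ℝ) : ℂ) := by push_cast; rfl
    rw [h2, ← Complex.ofReal_log (by positivity)]
  have h1 := dom S ⟨j1, Finset.mem_filter.2 ⟨Finset.mem_univ _, hj1⟩⟩ m (fun j => a j - Real.log ((n j + 1 : ℕ) : ℝ))
    (fun j t => ((n j : ℂ) + 1) ^ (t : ℂ) * LSeries (h j) t) (fun j => h j (n j + 1))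
    (fun j hj => (hn j (Finset.mem_filter.1 hj).2).2) hR (by
      intro j hj j' hj' hm hl
      refine hma j j' hm (hinj j j' (n j' + 1) (n j + 1) (by omega) (by omega) ?_)
      linarith)
  obtain ⟨t, ht1, ht2⟩ := (h1.and h0).exists
  apply ht1
  rw [← ht2]
  symm
  rw [← Finset.sum_filter_add_sum_filter_not Finset.univ (fun j => h j ≠ 0)]
  have h3 : ∑ j ∈ Finset.univ.filter (fun j => ¬ h j ≠ 0), (t : ℂ) ^ m j * Complex.exp (a j * t) * LSeries (h j) t = 0 := by
    refine Finset.sum_eq_zero fun j hj => ?_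
    have h4 : h j = 0 := not_not.1 (Finset.mem_filter.1 hj).2
    rw [h4]
    have h5 : LSeries (fun k => (0 : AF) k) t = 0 := by
      have : (fun k => (0 : AF) k) = (0 : ℕ → ℂ) := by
        funext k
        simp
      rw [this, LSeries_zero]
      rfl
    rw [h5, mul_zero]
  rw [h3, add_zero]
  refine Finset.sum_congr rfl fun j _ => ?_
  rw [hlog, mul_assoc, mul_assoc]
  congr 1
  rw [← mul_assoc, ← Complex.exp_add]
  congr 2
  push_cast
  ring

/-- polynomials in Dirichlet series -/
theorem eval_dir {κ : Type} (f : κ → AF) (hf : ∀ i, Fi (f i)) (P : MvPolynomial κ ℂ) :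
    ∀ᶠ t : ℝ in atTop, LSeriesSummable (MvPolynomial.aeval f P : AF) t ∧
      LSeries (MvPolynomial.aeval f P : AF) t = MvPolynomial.eval (fun i => LSeries (f i) t) P := by
  induction P using MvPolynomial.induction_on with
  | C c =>
    refine Eventually.of_forall fun t => ?_
    rw [MvPolynomial.aeval_C, MvPolynomial.eval_C]
    have h1 : (⇑(algebraMap ℂ AF c) : ℕ → ℂ) = c • LSeries.delta := by
      funext n
      rw [alg_apply, Pi.smul_apply, LSeries.delta, smul_eq_mul]
      split_ifs <;> simp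
    have h2 : LSeriesSummable (LSeries.delta) (t : ℂ) := by
      refine summable_of_ne_finset_zero (s := {1}) fun n hn => ?_
      rw [LSeries.term_delta, if_neg (by simpa using hn)]
    constructor
    · rw [h1]
      exact h2.smul c
    · rw [h1, LSeries_smul, LSeries_delta]
      simp
  | add P Q hP hQ =>
    filter_upwards [hP, hQ] with t h1 h2
    have h3 : (⇑(MvPolynomial.aeval f (P + Q) : AF) : ℕ → ℂ) =
        ⇑(MvPolynomial.aeval f P : AF) + ⇑(MvPolynomial.aeval f Q : AF) := by
      funext n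
      rw [map_add]
      rfl
    constructor
    · rw [h3]
      exact h1.1.add h2.1
    · rw [h3, LSeries_add h1.1 h2.1, map_add, h1.2, h2.2]
  | mul_X P i hP =>
    filter_upwards [hP, (hf i).ev] with t h1 h2
    rw [map_mul, MvPolynomial.aeval_X, map_mul, MvPolynomial.eval_X]
    exact ⟨ArithmeticFunction.LSeriesSummable_mul h1.1 h2, by rw [ArithmeticFunction.LSeries_mul' h1.1 h2, h1.2]⟩

/-- the two kinds of variables -/
def eqv (κ μ : Type) : Option (κ ⊕ μ) ≃ (Option μ) ⊕ κ where
  toFun o := match o with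
    | none => Sum.inl none
    | some (Sum.inl i) => Sum.inr i
    | some (Sum.inr j) => Sum.inl (some j)
  invFun o := match o with
    | Sum.inl none => none
    | Sum.inl (some j) => some (Sum.inr j)
    | Sum.inr i => some (Sum.inl i)
  left_inv o := by rcases o with _ | (i | j) <;> rfl
  right_inv o := by rcases o with (_ | j) | i <;> rfl

/-- **Independence of Dirichlet series and exponentials over `ℂ(t)`.** -/
theorem dirInd {κ μ : Type} [Fintype κ] [DecidableEq κ] [Fintype μ] [DecidableEq μ] (f : κ → AF) (hf : ∀ i, Fi (f i))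
    (hind : ∀ P : MvPolynomial κ ℂ, MvPolynomial.aeval f P = 0 → P = 0) (α : μ → ℝ)
    (hα : ∀ (e e' : μ → ℕ) (x y : ℕ), 1 ≤ x → 1 ≤ y → ∑ j, e j * α j + Real.log x = ∑ j, e' j * α j + Real.log y → e = e')
    (P : MvPolynomial (Option (κ ⊕ μ)) ℂ)
    (hP : ∀ᶠ t : ℝ in atTop, MvPolynomial.eval (fun o : Option (κ ⊕ μ) => o.elim (t : ℂ)
      (Sum.elim (fun i => LSeries (f i) t) (fun j => Complex.exp (α j * t)))) P = 0) : P = 0 := by
  classical
  set Q : MvPolynomial (Option μ) (MvPolynomial κ ℂ) :=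
    MvPolynomial.sumRingEquiv ℂ (Option μ) κ (MvPolynomial.rename (eqv κ μ) P) with hQ
  have hev : ∀ t : ℝ, MvPolynomial.eval (fun o : Option (κ ⊕ μ) => o.elim (t : ℂ)
      (Sum.elim (fun i => LSeries (f i) t) (fun j => Complex.exp (α j * t)))) P =
      MvPolynomial.eval₂ (MvPolynomial.eval fun i => LSeries (f i) t)
        (fun o : Option μ => o.elim (t : ℂ) fun j => Complex.exp (α j * t)) Q := by
    intro t
    have h1 : (MvPolynomial.eval (fun o : Option (κ ⊕ μ) => o.elim (t : ℂ)
        (Sum.elim (fun i => LSeries (f i) t) (fun j => Complex.exp (α j * t))))) =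
        ((MvPolynomial.eval₂Hom (MvPolynomial.eval fun i => LSeries (f i) t)
        (fun o : Option μ => o.elim (t : ℂ) fun j => Complex.exp (α j * t))).comp
        (MvPolynomial.sumRingEquiv ℂ (Option μ) κ).toRingHom).comp (MvPolynomial.rename (eqv κ μ) :
          MvPolynomial (Option (κ ⊕ μ)) ℂ →ₐ[ℂ] _).toRingHom := by
      refine MvPolynomial.ringHom_ext ?_ ?_
      · intro c
        simp
      · rintro (_ | (i | j))
        · simp [eqv]
        · simp [eqv]
        · simp [eqv]
    exact RingHom.congr_fun h1 P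
  have hsum : ∀ t : ℝ, MvPolynomial.eval₂ (MvPolynomial.eval fun i => LSeries (f i) t)
        (fun o : Option μ => o.elim (t : ℂ) fun j => Complex.exp (α j * t)) Q =
      ∑ s : Q.support, (t : ℂ) ^ (s.1 none) * Complex.exp ((((∑ j, (s.1 (some j) : ℝ) * α j : ℝ)) : ℂ) * t) *
        MvPolynomial.eval (fun i => LSeries (f i) t) (Q.coeff s.1) := by
    intro t
    rw [MvPolynomial.eval₂_eq', ← Finset.sum_coe_sort]
    refine Finset.sum_congr rfl fun s _ => ?_
    rw [Fintype.prod_option, mul_comm]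
    simp only [Option.elim_none, Option.elim_some]
    congr 2
    rw [Finset.prod_congr rfl fun j _ => (Complex.exp_nat_mul _ _).symm, ← Complex.exp_sum]
    congr 1
    push_cast
    rw [Finset.sum_mul]
    exact Finset.sum_congr rfl fun j _ => by ring
  have hall : ∀ s : Q.support, (MvPolynomial.aeval f (Q.coeff s.1) : AF) = 0 := by
    refine dir_unique (J := Q.support) (fun s => s.1 none) (fun s => ∑ j, (s.1 (some j) : ℝ) * α j)
      (fun s => MvPolynomial.aeval f (Q.coeff s.1)) (fun s => Fi.of_ev ((eval_dir f hf _).mono fun t ht => ht.1)) ?_ ?_ ?_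
    · intro s s' x y hx hy h
      have := hα (fun j => s.1 (some j)) (fun j => s'.1 (some j)) x y hx hy h
      refine Finset.sum_congr rfl fun j _ => ?_
      rw [congrFun this j]
    · intro s s' h1 h2
      have := hα (fun j => s.1 (some j)) (fun j => s'.1 (some j)) 1 1 le_rfl le_rfl (by rw [h2])
      refine Subtype.ext (Finsupp.ext fun o => ?_)
      cases o with
      | none => exact h1
      | some j => exact congrFun this j
    · have h1 : ∀ᶠ t : ℝ in atTop, ∀ s : Q.support, LSeries (MvPolynomial.aeval f (Q.coeff s.1) : AF) t =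
          MvPolynomial.eval (fun i => LSeries (f i) t) (Q.coeff s.1) :=
        eventually_all.2 fun s => (eval_dir f hf _).mono fun t ht => ht.2
      filter_upwards [hP, h1] with t h2 h3
      rw [hev, hsum] at h2
      rw [← h2]
      refine Finset.sum_congr rfl fun s _ => ?_
      rw [h3 s]
  have hQ0 : Q = 0 := by
    by_contra hne
    obtain ⟨s, hs⟩ := MvPolynomial.support_nonempty.2 hne
    exact (MvPolynomial.mem_support_iff.1 hs) (hind _ (hall ⟨s, hs⟩))
  have h1 : MvPolynomial.rename (eqv κ μ) P = 0 := by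
    apply (MvPolynomial.sumRingEquiv ℂ (Option μ) κ).injective
    rw [map_zero]
    exact hQ0
  exact MvPolynomial.rename_injective _ (eqv κ μ).injective (by rw [h1, map_zero])

end Pool.Agent.Q23.ZZ
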