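import Pool.Agent.Q23.ZZ.Ana

/-!
# The functions `L^(l)(χ, k z + x)`
-/

set_option autoImplicit false

open Filter Topology Finset

namespace Pool.Agent.Q23.ZZ

/-- the arithmetic function with the values `h n` at `n ^ k` -/
noncomputable def pk (k : ℕ) (h : ℕ → ℂ) : AF := ⟨fun m => ∑ n ∈ Finset.Icc 1 m, if n ^ k = m then h n else 0, by simp⟩

theorem pk_apply (k : ℕ) (h : ℕ → ℂ) (m : ℕ) : pk k h m = ∑ n ∈ Finset.Icc 1 m, if n ^ k = m then h n else 0 := rfl

theorem pk_pow {k : ℕ} (hk : 1 ≤ k) (h : ℕ → ℂ) {n : ℕ} (hn : 1 ≤ n) : pk k h (n ^ k) = h n := by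
  rw [pk_apply, Finset.sum_eq_single n]
  · rw [if_pos rfl]
  · intro b _ hb
    rw [if_neg]
    intro h1
    exact hb (Nat.pow_left_injective (by omega) h1)
  · intro h1
    exfalso
    apply h1
    rw [Finset.mem_Icc]
    exact ⟨hn, Nat.le_self_pow (by omega) n⟩

theorem pk_ne {k : ℕ} {h : ℕ → ℂ} {m : ℕ} (hm : pk k h m ≠ 0) : ∃ c, m = c ^ k := by
  by_contra hcon
  push Not at hcon
  apply hm
  rw [pk_apply]
  refine Finset.sum_eq_zero fun n _ => ?_
  rw [if_neg fun h1 => hcon n h1.symm]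

theorem pk_term {k : ℕ} (hk : 1 ≤ k) (h : ℕ → ℂ) (s : ℂ) (n : ℕ) :
    LSeries.term (pk k h) s (n ^ k) = LSeries.term h (k * s) n := by
  rcases Nat.eq_zero_or_pos n with hn | hn
  · subst hn
    rw [zero_pow (by omega)]
    simp
  · have h1 : n ^ k ≠ 0 := pow_ne_zero _ (by omega)
    rw [LSeries.term_of_ne_zero h1, LSeries.term_of_ne_zero (by omega), pk_pow hk h hn,
      Complex.natCast_cpow_natCast_mul]
    push_cast
    rfl

theorem pk_summable {k : ℕ} (hk : 1 ≤ k) {h : ℕ → ℂ} {s : ℂ} (hs : LSeriesSummable h (k * s)) :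
    LSeriesSummable (pk k h) s := by
  have hinj : Function.Injective fun n : ℕ => n ^ k := Nat.pow_left_injective (by omega)
  have h1 : ∀ m ∉ Set.range fun n : ℕ => n ^ k, LSeries.term (pk k h) s m = 0 := by
    intro m hm
    have h2 : pk k h m = 0 := by
      by_contra hne
      obtain ⟨c, hc⟩ := pk_ne hne
      exact hm ⟨c, hc.symm⟩
    rcases Nat.eq_zero_or_pos m with h0 | h0
    · rw [h0]
      simp
    · rw [LSeries.term_of_ne_zero (by omega), h2, zero_div]
  unfold LSeriesSummable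
  rw [← hinj.summable_iff h1]
  refine hs.congr fun n => ?_
  exact (pk_term hk h s n).symm

theorem pk_series {k : ℕ} (hk : 1 ≤ k) (h : ℕ → ℂ) (s : ℂ) : LSeries (pk k h) s = LSeries h (k * s) := by
  have hinj : Function.Injective fun n : ℕ => n ^ k := Nat.pow_left_injective (by omega)
  unfold LSeries
  rw [← hinj.tsum_eq (f := LSeries.term (pk k h) s)]
  · exact tsum_congr fun n => pk_term hk h s n
  · intro m hm
    rw [Function.mem_support] at hm
    by_contra hne
    apply hm
    have h2 : pk k h m = 0 := by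
      by_contra hne'
      obtain ⟨c, hc⟩ := pk_ne hne'
      exact hne ⟨c, hc.symm⟩
    rcases Nat.eq_zero_or_pos m with h0 | h0
    · rw [h0]
      simp
    · rw [LSeries.term_of_ne_zero (by omega), h2, zero_div]

/-- the coefficients of `L^(l)(χ, s + x)` -/
noncomputable def hh {N : ℕ} (χ : DirichletCharacter ℂ N) (l : ℕ) (x : ℝ) (n : ℕ) : ℂ :=
  (-(Real.log n : ℂ)) ^ l * χ n * (n : ℂ) ^ (-(x : ℂ))

theorem logMul_iter (f : ℕ → ℂ) (l n : ℕ) : LSeries.logMul^[l] f n = (Real.log n : ℂ) ^ l * f n := by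
  induction l with
  | zero => simp
  | succ l ih =>
    rw [Function.iterate_succ_apply']
    show Complex.log n * (LSeries.logMul^[l] f n) = _
    rw [ih, ← Complex.natCast_log, pow_succ]
    ring

theorem hh_term {N : ℕ} (χ : DirichletCharacter ℂ N) (l : ℕ) (x : ℝ) (s : ℂ) (n : ℕ) :
    LSeries.term (hh χ l x) s n = (-1) ^ l * LSeries.term (LSeries.logMul^[l] (fun n => χ n)) (s + x) n := by
  rcases Nat.eq_zero_or_pos n with h0 | h0
  · rw [h0]
    simp
  · have hn : (n : ℂ) ≠ 0 := by exact_mod_cast h0.ne'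
    rw [LSeries.term_of_ne_zero (by omega), LSeries.term_of_ne_zero (by omega), logMul_iter, hh,
      Complex.cpow_add _ _ hn, Complex.cpow_neg, neg_pow]
    field_simp

theorem hh_summable {N : ℕ} [NeZero N] (χ : DirichletCharacter ℂ N) (l : ℕ) (x : ℝ) {s : ℂ} (hs : 1 < (s + x).re) :
    LSeriesSummable (hh χ l x) s := by
  have h1 : LSeriesSummable (LSeries.logMul^[l] (fun n => χ n)) (s + x) := by
    refine LSeriesSummable_of_abscissaOfAbsConv_lt_re ?_
    rw [LSeries.absicssaOfAbsConv_logPowMul]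
    refine lt_of_le_of_lt (b := ((1 : ℝ) : EReal)) ?_ (by exact_mod_cast hs)
    refine LSeries.abscissaOfAbsConv_le_of_forall_lt_LSeriesSummable fun y hy => ?_
    exact DirichletCharacter.LSeriesSummable_of_one_lt_re χ (by simpa using hy)
  have h2 := h1.smul ((-1) ^ l)
  unfold LSeriesSummable at h1 ⊢
  have h3 : LSeries.term (hh χ l x) s = fun n => (-1) ^ l * LSeries.term (LSeries.logMul^[l] (fun n => χ n)) (s + x) n :=
    funext fun n => hh_term χ l x s n
  rw [h3]
  exact h1.mul_left _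

/-- the functions -/
noncomputable def Lf {N : ℕ} [NeZero N] (χ : DirichletCharacter ℂ N) (l : ℕ) (s : ℂ) : ℂ :=
  iteratedDeriv l (DirichletCharacter.LFunction χ) s

theorem Lf_an {N : ℕ} [NeZero N] (χ : DirichletCharacter ℂ N) (l : ℕ) {s : ℂ} (hs : s ≠ 1 ∨ χ ≠ 1) :
    AnalyticAt ℂ (Lf χ l) s := by
  have h1 : AnalyticAt ℂ (DirichletCharacter.LFunction χ) s := by
    rcases hs with hs | hs
    · have h2 : DifferentiableOn ℂ (DirichletCharacter.LFunction χ) {s | s ≠ 1} := fun z hz =>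
        (DirichletCharacter.differentiableAt_LFunction χ z (Or.inl hz)).differentiableWithinAt
      exact h2.analyticAt (isOpen_ne.mem_nhds hs)
    · exact (DirichletCharacter.differentiable_LFunction hs).analyticAt s
  show AnalyticAt ℂ (fun s => iteratedDeriv l (DirichletCharacter.LFunction χ) s) s
  have h3 : (fun s => iteratedDeriv l (DirichletCharacter.LFunction χ) s) = deriv^[l] (DirichletCharacter.LFunction χ) := by
    rw [← iteratedDeriv_eq_iterate]
  rw [h3]
  exact h1.iterated_deriv l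

theorem Lf_series {N : ℕ} [NeZero N] (χ : DirichletCharacter ℂ N) (l : ℕ) (x : ℝ) {s : ℂ} (hs : 1 < (s + x).re) :
    Lf χ l (s + x) = LSeries (hh χ l x) s := by
  have h1 : Lf χ l (s + x) = iteratedDeriv l (LSeries fun n => χ n) (s + x) := by
    have h2 : Set.EqOn (DirichletCharacter.LFunction χ) (LSeries fun n => χ n) {s | 1 < s.re} := fun z hz =>
      DirichletCharacter.LFunction_eq_LSeries χ hz
    have hopen : IsOpen {s : ℂ | 1 < s.re} := isOpen_lt continuous_const Complex.continuous_re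
    have h3 : (DirichletCharacter.LFunction χ) =ᶠ[𝓝 (s + x)] (LSeries fun n => χ n) :=
      h2.eventuallyEq_of_mem (hopen.mem_nhds hs)
    exact h3.iteratedDeriv_eq l
  rw [h1, LSeries_iteratedDeriv]
  · unfold LSeries
    rw [← tsum_mul_left]
    exact tsum_congr fun n => (hh_term χ l x s n).symm
  · refine lt_of_le_of_lt (b := ((1 : ℝ) : EReal)) ?_ (by exact_mod_cast hs)
    refine LSeries.abscissaOfAbsConv_le_of_forall_lt_LSeriesSummable fun y hy => ?_
    exact DirichletCharacter.LSeriesSummable_of_one_lt_re χ (by simpa using hy)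

/-- exponential polynomials with infinitely many zeros tending to infinity vanish -/
theorem exp_poly {r s : ℕ} (x : Fin r → ℝ) (hx : Function.Injective x) (b : Fin r × Fin s → ℂ)
    (h : ∃ᶠ y : ℝ in atTop, ∑ z, b z * ((-(y : ℂ)) ^ (z.2 : ℕ) * Complex.exp (-(x z.1 * y))) = 0) : b = 0 := by
  classical
  by_contra hb
  obtain ⟨z1, hz1⟩ : ∃ z, b z ≠ 0 := by
    by_contra hcon
    push Not at hcon
    exact hb (funext hcon)
  have h1 := dom (Finset.univ.filter fun z => b z ≠ 0) ⟨z1, by simp [hz1]⟩ (fun z => (z.2 : ℕ)) (fun z => -x z.1)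
    (fun z _ => b z * (-1) ^ (z.2 : ℕ)) (fun z => b z * (-1) ^ (z.2 : ℕ))
    (fun z hz => mul_ne_zero (Finset.mem_filter.1 hz).2 (pow_ne_zero _ (by norm_num))) (fun z _ => tendsto_const_nhds)
    (by
      intro z _ z' _ h2 h3
      exact Prod.ext (hx (by linarith)) (Fin.ext h2))
  obtain ⟨y, hy1, hy2⟩ := (h.and_eventually h1).exists
  apply hy2
  have h3 : ∑ z ∈ Finset.univ.filter (fun z => ¬ b z ≠ 0), b z * ((-(y : ℂ)) ^ (z.2 : ℕ) * Complex.exp (-(x z.1 * y))) = 0 := by
    refine Finset.sum_eq_zero fun z hz => ?_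
    rw [not_not.1 (Finset.mem_filter.1 hz).2, zero_mul]
  rw [← Finset.sum_filter_add_sum_filter_not Finset.univ (fun z => b z ≠ 0), h3, add_zero] at hy1
  refine Eq.trans (Finset.sum_congr rfl fun z _ => ?_) hy1
  have h4 : (((-x z.1 : ℝ)) : ℂ) * y = -(x z.1 * y) := by push_cast; ring
  rw [h4, neg_pow (y : ℂ)]
  ring

/-- the index set -/
abbrev Iz (c K r s : ℕ) : Type := Fin c × (Fin K × (Fin r × Fin s))

/-- the arithmetic functions -/
noncomputable def ff {N c K r s : ℕ} (χ : Fin c → DirichletCharacter ℂ N) (x : Fin r → ℝ) (i : Iz c K r s) : AF :=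
  pk ((i.2.1 : ℕ) + 1) (hh (χ i.1) i.2.2.2 (x i.2.2.1))

/-- linear independence on primes -/
theorem ff_li {N c K r s : ℕ} [NeZero N] (χ : Fin c → DirichletCharacter ℂ N) (hχ : Function.Injective χ)
    (x : Fin r → ℝ) (hx : Function.Injective x) (m M : ℕ) (b : Iz c K r s → ℂ) (hM : M ≠ 0)
    (h : ∀ p : ℕ, p.Prime → ¬ p ∣ M → ∑ i : Iz c K r s, (if (i.2.1 : ℕ) + 1 = m then b i * ff χ x i (p ^ m) else 0) = 0)
    (i0 : Iz c K r s) (hi0 : (i0.2.1 : ℕ) + 1 = m) : b i0 = 0 := by
  classical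
  obtain ⟨j0, k0, z0⟩ := i0
  simp only at hi0
  -- the relation on primes
  have hrel : ∀ p : ℕ, p.Prime → ¬ p ∣ M → ∑ z : Fin r × Fin s, (∑ j, b (j, (k0, z)) * χ j p) *
      ((-(Real.log p : ℂ)) ^ (z.2 : ℕ) * (p : ℂ) ^ (-(x z.1 : ℂ))) = 0 := by
    intro p hp hpM
    have e1 : ∑ i : Iz c K r s, (if (i.2.1 : ℕ) + 1 = m then b i * ff χ x i (p ^ m) else 0) =
        ∑ j, ∑ z : Fin r × Fin s, b (j, (k0, z)) * χ j p *
          ((-(Real.log p : ℂ)) ^ (z.2 : ℕ) * (p : ℂ) ^ (-(x z.1 : ℂ))) := by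
      rw [Fintype.sum_prod_type]
      refine Finset.sum_congr rfl fun j _ => ?_
      rw [Fintype.sum_prod_type, Finset.sum_eq_single k0]
      · refine Finset.sum_congr rfl fun z _ => ?_
        simp only [hi0, if_true, ff]
        rw [← hi0, pk_pow (by omega) _ hp.one_lt.le, hh]
        ring
      · intro k _ hk
        refine Finset.sum_eq_zero fun z _ => ?_
        rw [if_neg]
        intro h1
        exact hk (Fin.ext (by simp only at h1; omega))
      · intro h1
        exact absurd (Finset.mem_univ _) h1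
    rw [h p hp hpM, Finset.sum_comm] at e1
    simp only [Finset.sum_mul]
    exact e1.symm
  -- the values of the combination of characters
  have hval : ∀ (z : Fin r × Fin s) (a : ZMod N), ∑ j, b (j, (k0, z)) * χ j a = 0 := by
    intro z a
    by_cases ha : IsUnit a
    · have h1 := exp_poly x hx (fun z => ∑ j, b (j, (k0, z)) * χ j a) (by
        rw [frequently_atTop]
        intro Y
        obtain ⟨p, hpn, hp, hpa⟩ := Nat.forall_exists_prime_gt_and_eq_mod ha (M + ⌈Real.exp Y⌉₊)
        refine ⟨Real.log p, ?_, ?_⟩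
        · rw [Real.le_log_iff_exp_le (by exact_mod_cast hp.pos)]
          have h2 := Nat.le_ceil (Real.exp Y)
          have h3 : (⌈Real.exp Y⌉₊ : ℝ) ≤ p := by exact_mod_cast (by omega : ⌈Real.exp Y⌉₊ ≤ p)
          linarith
        · have h2 := hrel p hp (fun hd => by
            have := Nat.le_of_dvd (Nat.pos_of_ne_zero hM) hd
            omega)
          rw [← h2]
          refine Finset.sum_congr rfl fun z _ => ?_
          rw [hpa]
          congr 2
          have hp0 : (p : ℂ) ≠ 0 := by exact_mod_cast hp.ne_zero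
          rw [Complex.cpow_def_of_ne_zero hp0, ← Complex.natCast_log]
          congr 1
          ring)
      exact congrFun h1 z
    · exact Finset.sum_eq_zero fun j _ => by rw [MulChar.map_nonunit _ ha, mul_zero]
  -- independence of characters
  have hli : LinearIndependent ℂ (fun j : Fin c => ((χ j).toMonoidHom : ZMod N → ℂ)) := by
    have h1 := linearIndependent_monoidHom (ZMod N) ℂ
    exact h1.comp (fun j : Fin c => (χ j).toMonoidHom) (fun j j' hjj => hχ (by
      refine MulChar.ext fun a => ?_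
      exact DFunLike.congr_fun hjj (a : ZMod N)))
  rw [Fintype.linearIndependent_iff] at hli
  exact hli (fun j => b (j, (k0, z0))) (by
    funext a
    have := hval z0 a
    rw [Finset.sum_apply]
    simpa using this) j0

theorem ff_fi {N c K r s : ℕ} [NeZero N] (χ : Fin c → DirichletCharacter ℂ N) (x : Fin r → ℝ) (i : Iz c K r s) :
    ∀ᶠ t : ℝ in atTop, LSeriesSummable (ff χ x i) t ∧
      LSeries (ff χ x i) t = Lf (χ i.1) i.2.2.2 ((((i.2.1 : ℕ) + 1 : ℕ) : ℂ) * t + x i.2.2.1) := by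
  filter_upwards [eventually_gt_atTop (1 + |x i.2.2.1|)] with t ht
  have h1 : 1 < ((((i.2.1 : ℕ) + 1 : ℕ) : ℂ) * t + x i.2.2.1).re := by
    have h2 : ((((i.2.1 : ℕ) + 1 : ℕ) : ℂ) * t + x i.2.2.1).re = (((i.2.1 : ℕ) + 1 : ℕ) : ℝ) * t + x i.2.2.1 := by
      rw [Complex.add_re, Complex.ofReal_re, ← Complex.ofReal_natCast, ← Complex.ofReal_mul, Complex.ofReal_re]
    rw [h2]
    have h3 := neg_abs_le (x i.2.2.1)
    have h4 := abs_nonneg (x i.2.2.1)
    have h5 : (1 : ℝ) ≤ (((i.2.1 : ℕ) + 1 : ℕ) : ℝ) := by exact_mod_cast Nat.succ_le_succ (Nat.zero_le _)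
    nlinarith
  constructor
  · exact pk_summable (by omega) (hh_summable _ _ _ h1)
  · unfold ff
    rw [pk_series (by omega), Lf_series _ _ _ h1]

/-- **Independence of L-functions, derivatives and exponentials over `ℂ(t)`.** -/
theorem Lf_ind {N c K r s u : ℕ} [NeZero N] (χ : Fin c → DirichletCharacter ℂ N) (hχ : Function.Injective χ)
    (x : Fin r → ℝ) (hx : Function.Injective x) (α : Fin u → ℝ)
    (hα : ∀ (e e' : Fin u → ℕ) (x y : ℕ), 1 ≤ x → 1 ≤ y →
      ∑ j, e j * α j + Real.log x = ∑ j, e' j * α j + Real.log y → e = e')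
    (P : MvPolynomial (Option (Iz c K r s ⊕ Fin u)) ℂ)
    (hP : ∀ᶠ t : ℝ in atTop, MvPolynomial.eval (fun o : Option (Iz c K r s ⊕ Fin u) => o.elim (t : ℂ)
      (Sum.elim (fun i => Lf (χ i.1) i.2.2.2 ((((i.2.1 : ℕ) + 1 : ℕ) : ℂ) * t + x i.2.2.1))
        (fun j => Complex.exp (α j * t)))) P = 0) : P = 0 := by
  classical
  refine dirInd (ff χ x) (fun i => Fi.of_ev ((ff_fi χ x i).mono fun t ht => ht.1)) ?_ α hα P ?_
  · intro Q hQ
    exact algInd (ff χ x) (fun i => (i.2.1 : ℕ) + 1) (fun i => by omega) (fun i n hn => pk_ne hn)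
      (fun m M b _ hM h i hi => ff_li χ hχ x hx m M b hM h i hi) Q hQ
  · filter_upwards [hP, eventually_all.2 fun i => (ff_fi χ x i).mono fun t ht => ht.2] with t h1 h2
    rw [← h1]
    congr 2
    funext o
    rcases o with _ | (i | j)
    · rfl
    · exact h2 i
    · rfl

end Pool.Agent.Q23.ZZ
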